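import Mathlib
import Pool.Agent.Helper890.ChiDef
import Pool.Agent.Helper890.ChiFinal

namespace Pool.Agent.Results.MP_4856b2_nt.ASequenceBound

open Pool.Agent.Helper890 Finset
open scoped ENNReal

/-- `a 0 < a 1 < a 2 < ...` is an A-sequence: a strictly increasing sequence of positive integers in
which no term is a sum of two or more distinct preceding terms. -/
structure IsASequence (a : ℕ → ℕ) : Prop where
  pos : ∀ k, 0 < a k
  strictMono : StrictMono a
  not_sum : ∀ (k : ℕ) (s : Finset ℕ), (∀ i ∈ s, i < k) → 2 ≤ s.card → a k ≠ ∑ i ∈ s, a i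

/-- the supremum of the reciprocal sums of all A-sequences, in `[0, ∞]` -/
noncomputable def supRecip : ℝ≥0∞ :=
  ⨆ (a : ℕ → ℕ) (_ : IsASequence a), ∑' k : ℕ, ((a k : ℕ) : ℝ≥0∞)⁻¹

/-- Sanity check: `chi 1 = 1`, and for `i ≥ 2`, `chi i` is the greatest element of
`{(j+1)(i - chi j) : 1 ≤ j < i}`. -/
theorem chi_recursion : chi 1 = 1 ∧ ∀ i : ℕ, 2 ≤ i →
    IsGreatest {x : ℤ | ∃ j : ℕ, 1 ≤ j ∧ j < i ∧ x = ((j : ℤ) + 1) * ((i : ℤ) - chi j)} (chi i) := by
  refine ⟨chi_one, fun i hi => ⟨?_, ?_⟩⟩
  · obtain ⟨p, h1, h2, h3⟩ := chi_exists hi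
    exact ⟨p, h1, h2, h3⟩
  · rintro x ⟨j, h1, h2, rfl⟩
    exact chi_ge' hi h1 h2

/-- Sanity check: the powers of two form an A-sequence. -/
theorem isASequence_two_pow : IsASequence (fun k => 2 ^ k) where
  pos := fun k => by positivity
  strictMono := pow_right_strictMono₀ (by norm_num)
  not_sum := by
    intro k s hs _ heq
    have h1 : ∑ i ∈ s, 2 ^ i < 2 ^ k := Nat.geomSum_lt (le_refl 2) hs
    exact absurd heq (Nat.ne_of_gt h1)

/-- the number of pairs `(m, l)` with `m ≤ j`, `l < i`, not `m ≤ l < j` -/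
lemma card_good {i j : ℕ} (hij : j ≤ i) :
    2 * ((((range (j + 1)).sigma (fun m => range i \ Ico m j)).card : ℕ) : ℤ)
      = 2 * ((j : ℤ) + 1) * i - j * (j + 1) := by
  rw [card_sigma]
  have h1 : ∀ m ∈ range (j + 1), ((range i \ Ico m j).card : ℤ) = (i : ℤ) - j + m := by
    intro m hm
    rw [mem_range] at hm
    rw [card_sdiff_of_subset, card_range, Nat.card_Ico]
    · omega
    · intro x hx
      rw [mem_Ico] at hx
      rw [mem_range]
      omega
  push_cast
  rw [sum_congr rfl h1]
  clear h1 hij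
  induction j with
  | zero => simp
  | succ j ih =>
    have h2 : ∀ (c : ℤ) (n : ℕ), ∑ m ∈ range n, (c + (m : ℤ)) = n * c + ∑ m ∈ range n, (m : ℤ) := by
      intro c n
      rw [sum_add_distrib, sum_const, card_range, nsmul_eq_mul]
    rw [h2] at ih ⊢
    rw [sum_range_succ]
    push_cast at ih ⊢
    linarith

lemma sigma_bound {a : ℕ → ℕ} (hm : StrictMono a) (j : ℕ) :
    2 * (∑ t ∈ range (j + 1), (a t : ℤ)) ≤ 2 * ((j : ℤ) + 1) * a j - j * (j + 1) := by
  have h1 : ∀ t ∈ range (j + 1), (a t : ℤ) ≤ (a j : ℤ) - j + t := by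
    intro t ht
    rw [mem_range] at ht
    have : ∀ d : ℕ, a t + d ≤ a (t + d) := by
      intro d
      induction d with
      | zero => simp
      | succ d ih =>
        have := hm (show t + d < t + (d + 1) by omega)
        omega
    have h2 := this (j - t)
    rw [show t + (j - t) = j by omega] at h2
    omega
  have h3 := sum_le_sum h1
  have h4 : ∀ (c : ℤ) (n : ℕ), 2 * ∑ m ∈ range (n + 1), (c + (m : ℤ)) = 2 * (n + 1) * c + n * (n + 1) := by
    intro c n
    induction n with
    | zero => simp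
    | succ n ih =>
      rw [sum_range_succ, mul_add, ih]
      push_cast
      ring
  have h5 := h4 ((a j : ℤ) - j) j
  nlinarith [h3, h5]

/-- every A-sequence satisfies the chi inequality (0-indexed form) -/
theorem chi_ineq {a : ℕ → ℕ} (ha : IsASequence a) (i j : ℕ) (hi : 1 ≤ i) :
    ((j : ℤ) + 2) * i ≤ (a (i - 1) : ℤ) + ((j : ℤ) + 2) * a j := by
  have hgrow : ∀ k, k + 1 ≤ a k := by
    intro k
    induction k with
    | zero => exact ha.pos 0
    | succ k ih =>
      have : a k < a (k + 1) := ha.strictMono (Nat.lt_succ_self k)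
      omega
  rcases le_or_gt i (a j) with hle | hgt
  · have h1 : (i : ℤ) ≤ a j := by exact_mod_cast hle
    have h2 : ((j : ℤ) + 2) * i ≤ ((j : ℤ) + 2) * a j := mul_le_mul_of_nonneg_left h1 (by positivity)
    have h3 : (0 : ℤ) ≤ a (i - 1) := by positivity
    linarith
  have hj1 := hgrow j
  have hji : j + 1 ≤ i := by omega
  -- the good pairs and the values
  set G := (range (j + 1 + 1)).sigma (fun m => range i \ Ico m (j + 1)) with hG
  set f : (Σ _ : ℕ, ℕ) → ℤ := fun p => (a p.2 : ℤ) - ∑ t ∈ range p.1, (a t : ℤ) with hf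
  have hinj : Set.InjOn f (G : Set (Σ _ : ℕ, ℕ)) := by
    have key : ∀ m k l l' : ℕ, k < m → m ≤ j + 1 → ¬ (k ≤ l' ∧ l' < j + 1) →
        (a l : ℤ) - ∑ t ∈ range m, (a t : ℤ) = (a l' : ℤ) - ∑ t ∈ range k, (a t : ℤ) → False := by
      intro m k l l' hkm hm hl' heq
      have hni : l' ∉ Ico k m := by
        rw [mem_Ico]
        omega
      have hsum : ∑ t ∈ range m, (a t : ℤ) = ∑ t ∈ range k, (a t : ℤ) + ∑ t ∈ Ico k m, (a t : ℤ) := by
        rw [range_eq_Ico, range_eq_Ico, sum_Ico_consecutive _ (Nat.zero_le _) hkm.le]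
      have h1 : (a l : ℤ) = ∑ t ∈ insert l' (Ico k m), (a t : ℤ) := by
        rw [sum_insert hni]
        linarith
      have h2 : a l = ∑ t ∈ insert l' (Ico k m), a t := by
        have : ((a l : ℕ) : ℤ) = ((∑ t ∈ insert l' (Ico k m), a t : ℕ) : ℤ) := by
          rw [h1]
          push_cast
          rfl
        exact_mod_cast this
      have hcard : 2 ≤ (insert l' (Ico k m)).card := by
        rw [card_insert_of_notMem hni, Nat.card_Ico]
        omega
      have hlt : ∀ t ∈ insert l' (Ico k m), t < l := by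
        intro t ht
        by_contra hcon
        push Not at hcon
        have h3 : a l ≤ a t := ha.strictMono.monotone hcon
        obtain ⟨u, hu, hne⟩ := exists_mem_ne (by omega : 1 < (insert l' (Ico k m)).card) t
        have h4 : a t + a u ≤ ∑ t ∈ insert l' (Ico k m), a t := by
          have : ∑ x ∈ ({t, u} : Finset ℕ), a x ≤ ∑ t ∈ insert l' (Ico k m), a t := by
            apply sum_le_sum_of_subset
            intro x hx
            rw [mem_insert, mem_singleton] at hx
            rcases hx with rfl | rfl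
            · exact ht
            · exact hu
          rwa [sum_pair (Ne.symm hne)] at this
        have := ha.pos u
        omega
      exact ha.not_sum l _ hlt hcard h2
    rintro ⟨m, l⟩ hp ⟨k, l'⟩ hq heq
    rw [hG, mem_coe, mem_sigma] at hp hq
    simp only [mem_range, mem_sdiff, mem_Ico] at hp hq
    simp only [hf] at heq
    rcases lt_trichotomy m k with h | h | h
    · exact (key k m l' l h (by omega) hp.2.2 heq.symm).elim
    · subst h
      have : (a l : ℤ) = a l' := by linarith
      have h2 : a l = a l' := by exact_mod_cast this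
      rw [ha.strictMono.injective h2]
    · exact (key m k l l' h (by omega) hq.2.2 heq).elim
  have hmaps : ∀ p ∈ G, f p ∈ Ioc (-(∑ t ∈ range (j + 1), (a t : ℤ))) (a (i - 1) : ℤ) := by
    rintro ⟨m, l⟩ hp
    rw [hG, mem_sigma] at hp
    simp only [mem_range, mem_sdiff, mem_Ico] at hp
    simp only [hf, mem_Ioc]
    constructor
    · have h1 : ∑ t ∈ range m, (a t : ℤ) ≤ ∑ t ∈ range (j + 1), (a t : ℤ) := by
        apply sum_le_sum_of_subset_of_nonneg
        · intro x hx
          rw [mem_range] at hx ⊢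
          omega
        · intro x _ _
          positivity
      have h2 : (0 : ℤ) < a l := by exact_mod_cast ha.pos l
      linarith
    · have h1 : (a l : ℤ) ≤ a (i - 1) := by
        exact_mod_cast ha.strictMono.monotone (by omega : l ≤ i - 1)
      have h2 : (0 : ℤ) ≤ ∑ t ∈ range m, (a t : ℤ) := by positivity
      linarith
  have hcard := card_le_card_of_injOn f hmaps hinj
  rw [Int.card_Ioc] at hcard
  have hc2 := card_good (i := i) (j := j + 1) hji
  have hs := sigma_bound ha.strictMono j
  have hnn : (0 : ℤ) ≤ ∑ t ∈ range (j + 1), (a t : ℤ) := by positivity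
  have hcz : (G.card : ℤ) ≤ (a (i - 1) : ℤ) + ∑ t ∈ range (j + 1), (a t : ℤ) := by omega
  rw [← hG] at hc2
  have hj2 : (j : ℤ) + 1 ≤ a j := by exact_mod_cast hj1
  push_cast at hc2
  nlinarith [hc2, hs, hcz, hj2]

/-- The conjecture of Levine and O'Sullivan on A-sequences: the supremum of the reciprocal sums of
all A-sequences is at most the (finite) sum of the reciprocals of the chi sequence. -/
theorem result :
    Summable (fun k : ℕ => 1 / (chi (k + 1) : ℝ)) ∧
    supRecip ≤ ENNReal.ofReal (∑' k : ℕ, 1 / (chi (k + 1) : ℝ)) := by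
  refine ⟨summable_chi, ?_⟩
  unfold supRecip
  apply iSup_le
  intro a
  apply iSup_le
  intro ha
  have hmain := main_infinite (fun k => (a (k - 1) : ℤ)) (by
    intro i j hi hj
    have := chi_ineq ha i (j - 1) hi
    have hj' : ((j - 1 : ℕ) : ℤ) = (j : ℤ) - 1 := by omega
    rw [hj'] at this
    linarith)
  obtain ⟨h1, h2⟩ := hmain
  simp only [Nat.add_sub_cancel, Int.cast_natCast] at h1 h2
  have h3 : ∑' k : ℕ, ((a k : ℕ) : ℝ≥0∞)⁻¹ = ENNReal.ofReal (∑' k : ℕ, 1 / ((a k : ℕ) : ℝ)) := by
    rw [ENNReal.ofReal_tsum_of_nonneg (fun k => by positivity) h1]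
    congr 1
    ext k
    have hk : (0 : ℝ) < (a k : ℝ) := by exact_mod_cast ha.pos k
    rw [one_div, ENNReal.ofReal_inv_of_pos hk, ENNReal.ofReal_natCast]
  rw [h3]
  exact ENNReal.ofReal_le_ofReal h2

end Pool.Agent.Results.MP_4856b2_nt.ASequenceBound
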